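import Pool.Agent.H8.Turan2b

namespace Pool.Agent.Results.MP_d240f8_an.Extremal

open Polynomial Pool.Agent.H8.Turan2

/-- the uniform norm on `[-1,1]` -/
noncomputable def supN (f : ℝ[X]) : ℝ := sSup ((fun x => |f.eval x|) '' Set.Icc (-1 : ℝ) 1)

/-- degree exactly `n`, and all `n` zeros (with multiplicity) are real and lie in `[-1,1]` -/
def InP (n : ℕ) (P : ℝ[X]) : Prop :=
  P.natDegree = n ∧ Multiset.card P.roots = n ∧ ∀ r ∈ P.roots, r ∈ Set.Icc (-1 : ℝ) 1

lemma sup_spec (f : ℝ[X]) : ∃ x ∈ Set.Icc (-1 : ℝ) 1, supN f = |f.eval x| ∧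
    ∀ y ∈ Set.Icc (-1 : ℝ) 1, |f.eval y| ≤ |f.eval x| :=
  isCompact_Icc.exists_sSup_image_eq_and_ge ⟨0, by norm_num⟩ f.continuous.abs.continuousOn

theorem result (m : ℕ) (hm : 3 ≤ m) :
    IsLeast {c : ℝ | ∃ P : ℝ[X], InP (2 * m + 1) P ∧ c = supN (derivative (derivative P)) / supN P}
      (supN (derivative (derivative ((1 - X) ^ m * (1 + X) ^ (m + 1) : ℝ[X]))) /
        supN ((1 - X) ^ m * (1 + X) ^ (m + 1))) := by
  obtain ⟨k, rfl⟩ : ∃ k, m = k + 2 := ⟨m - 2, by omega⟩
  have hk1 : 1 ≤ k := by omega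
  have hk : (1 : ℝ) ≤ k := by exact_mod_cast hk1
  change IsLeast _ (supN (derivative (derivative (Qm (k + 2)))) / supN (Qm (k + 2)))
  constructor
  · refine ⟨Qm (k + 2), ?_, rfl⟩
    have hc : ((-1 : ℝ)) ^ (k + 2) ≠ 0 := pow_ne_zero _ (by norm_num)
    have hr : (Qm (k + 2)).roots = Multiset.replicate (k + 2 + 1) (-1) + Multiset.replicate (k + 2) 1 := by
      rw [Q_eq, roots_C_mul _ hc, Tp, roots_multiset_prod_X_sub_C]
    refine ⟨?_, ?_, ?_⟩
    · rw [Q_eq, natDegree_C_mul hc, Tp, natDegree_multiset_prod_X_sub_C_eq_card]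
      simp; omega
    · rw [hr]; simp; omega
    · intro r h
      rw [hr] at h
      rcases Multiset.mem_add.1 h with h | h <;> rw [Multiset.eq_of_mem_replicate h] <;>
        constructor <;> norm_num
  · rintro c ⟨P, ⟨d1, d2, d3⟩, rfl⟩
    have P0 : P ≠ 0 := by rintro rfl; simp at d1
    obtain ⟨x0, m0, e0, f0⟩ := sup_spec P
    obtain ⟨x1, m1, e1, _⟩ := sup_spec (derivative (derivative (Qm (k + 2))))
    obtain ⟨x2, _, e2, f2⟩ := sup_spec (derivative (derivative P))
    obtain ⟨x3, _, e3, f3⟩ := sup_spec (Qm (k + 2))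
    have ne0 : P.eval x0 ≠ 0 := by
      intro h
      refine P0 (eq_zero_of_infinite_isRoot P ((Set.Icc_infinite (show (-1 : ℝ) < 1 by norm_num)).mono ?_))
      intro y hy
      have := f0 y hy
      rw [h, abs_zero] at this
      exact abs_nonpos_iff.1 this
    have fac := C_leadingCoeff_mul_prod_multiset_X_sub_C (p := P) (by rw [d1, d2])
    change C P.leadingCoeff * Tp P.roots = P at fac
    have hx : ∀ r ∈ P.roots, x0 ≠ r := by
      rintro r hr rfl
      exact ne0 (isRoot_of_mem_roots hr)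
    have s0 : P.eval x0 = P.leadingCoeff * (Tp P.roots).eval x0 := by
      conv_lhs => rw [← fac]
      rw [eval_mul, eval_C]
    have s1 : (derivative P).eval x0 = P.eval x0 * g1 (P.roots.map (fun r => 1 / (x0 - r))) 0 := by
      have := (shift P.roots x0 0 hx).2.1
      rw [add_zero] at this
      rw [s0, mul_assoc, ← this]
      conv_lhs => rw [← fac]
      rw [derivative_C_mul, eval_mul, eval_C]
    have s2 : ∀ t, (derivative (derivative P)).eval (x0 + t) =
        P.eval x0 * g2 (P.roots.map (fun r => 1 / (x0 - r))) t := by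
      intro t
      rw [s0, mul_assoc, ← (shift P.roots x0 t hx).2.2]
      conv_lhs => rw [← fac]
      rw [derivative_C_mul, derivative_C_mul, eval_mul, eval_C]
    obtain ⟨t, t1, t2, t3⟩ := core k hk1 P.roots (by omega) d3 x0 m0.1 m0.2 hx (fun a b => by
      have hl : IsLocalMax (fun y => (P * P).eval y) x0 := by
        filter_upwards [Icc_mem_nhds a b] with y hy
        rw [eval_mul, eval_mul]
        exact (mul_self_le_mul_self (abs_nonneg _) (f0 y hy)).trans_eq' (abs_mul_abs_self _) |>.trans_eq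
          (abs_mul_abs_self _)
      have := hl.hasDerivAt_eq_zero ((P * P).hasDerivAt x0)
      rw [derivative_mul, eval_add, eval_mul, eval_mul, s1] at this
      have h2 : P.eval x0 ^ 2 * g1 (P.roots.map (fun r => 1 / (x0 - r))) 0 = 0 := by linarith
      exact (mul_eq_zero.1 h2).resolve_left (pow_ne_zero 2 ne0)) x1 m1.1 m1.2
    have y0 : 0 < 1 / (2 * (k : ℝ) + 5) := by positivity
    have y1 : 1 / (2 * (k : ℝ) + 5) ≤ 1 / 5 := one_div_le_one_div_of_le (by norm_num) (by linarith)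
    have u1 := (le_abs_self _).trans (f3 (1 / (2 * (k : ℝ) + 5)) ⟨by linarith, by linarith⟩)
    have qp : 0 < (Qm (k + 2)).eval (1 / (2 * (k : ℝ) + 5)) := by
      rw [Q0]
      have := (W0_pos k).1
      have : 0 < 1 - 1 / (2 * (k : ℝ) + 5) := by linarith
      positivity
    have u2 := f2 (x0 + t) ⟨t1, t2⟩
    rw [s2, abs_mul] at u2
    have pp : 0 < |P.eval x0| := abs_pos.2 ne0
    rw [e0, e1, e2, e3, div_le_div_iff₀ (by linarith) pp]
    have v1 := mul_le_mul_of_nonneg_right
      (t3.trans (mul_le_mul_of_nonneg_left u1 (abs_nonneg _))) pp.le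
    have v2 := mul_le_mul_of_nonneg_right u2 (abs_nonneg ((Qm (k + 2)).eval x3))
    linarith

end Pool.Agent.Results.MP_d240f8_an.Extremal
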